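import Pool.Agent.K1H34.HYS.Stm
import Pool.Agent.H238R2.HY.Struct

/-!
# Labels of the edges: Vizing's theorem in every block
-/

set_option autoImplicit false

open Classical Finset

namespace Pool.Agent.K1H39.HYS

open Pool.Agent.K1H34.HYS

/-- the edges of block `m` -/
def Gm {V : Type} (G : SimpleGraph V) (a : V → V → ℕ) (ha : ∀ u v, a u v = a v u) (m : ℕ) :
    SimpleGraph V where
  Adj u v := G.Adj u v ∧ a u v = m
  symm := ⟨fun u v h => ⟨h.1.symm, by rw [ha]; exact h.2⟩⟩
  loopless := ⟨fun u h => G.irrefl h.1⟩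

theorem t_EDGE : S_EDGE := by
  intro V _ G a b hb ha hdeg
  have hblk : ∀ m : ℕ, ∃ c : V → V → ℕ, (∀ u v, c u v = c v u) ∧
      (∀ u v, (Gm G a ha m).Adj u v → c u v ≤ b - 1) ∧
      ∀ u v v', (Gm G a ha m).Adj u v → (Gm G a ha m).Adj u v' → v ≠ v' → c u v ≠ c u v' := by
    intro m
    apply Pool.Agent.H238R2.HY.vizing
    intro v
    rw [← SimpleGraph.card_neighborFinset_eq_degree]
    have h1 := hdeg v m
    have h2 : ((Gm G a ha m).neighborFinset v).card ≤
        (univ.filter (fun u => G.Adj v u ∧ a v u = m)).card := by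
      refine card_le_card fun u hu => ?_
      rw [SimpleGraph.mem_neighborFinset] at hu
      exact mem_filter.2 ⟨mem_univ _, hu⟩
    omega
  choose c hc1 hc2 hc3 using hblk
  have hdiv : ∀ u v, G.Adj u v → (b * a u v + c (a u v) u v) / b = a u v := by
    intro u v huv
    have h1 := hc2 (a u v) u v ⟨huv, rfl⟩
    rw [Nat.mul_add_div (by omega), Nat.div_eq_of_lt (by omega), add_zero]
  refine ⟨fun u v => b * a u v + c (a u v) u v, fun u v => ?_, hdiv, ?_⟩
  · simp only
    rw [ha u v, hc1]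
  · intro u v v' huv huv' hne h
    simp only at h
    have h1 := hdiv u v huv
    rw [h, hdiv u v' huv'] at h1
    rw [h1] at h
    exact hc3 (a u v) u v v' ⟨huv, rfl⟩ ⟨huv', h1⟩ hne (by omega)

end Pool.Agent.K1H39.HYS
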